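import Pool.Agent.Helper47.FLG.Fun

/-! # Packet FLG-PDL: strict pinching of one metric improves (compactness) -/

set_option autoImplicit false

open Finset Pool.Agent.Helper47.RFn Pool.Agent.Helper73.RFn Pool.Agent.Helper47.FLG

namespace Pool.Agent.Helper83.FLG.PDL

/-! ### algebra: quadrilinear forms with the symmetries of a curvature tensor -/

section alg
variable {m : ℕ}

/-- the quadrilinear form -/
def QL (R : T4 m) (p q r s : Fin m → ℝ) : ℝ :=
  ∑ a, ∑ b, ∑ c, ∑ d, R a b c d * p a * q b * r c * s d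

/-- dot product -/
def dt (p q : Fin m → ℝ) : ℝ := ∑ a, p a * q a

theorem dt_comm (p q : Fin m → ℝ) : dt p q = dt q p := by
  unfold dt
  exact Finset.sum_congr rfl fun a _ => mul_comm _ _

theorem dt_smul_left (c : ℝ) (p q : Fin m → ℝ) : dt (fun a => c * p a) q = c * dt p q := by
  unfold dt
  rw [Finset.mul_sum]
  exact Finset.sum_congr rfl fun a _ => by ring

theorem dt_add_left (p p' q : Fin m → ℝ) : dt (fun a => p a + p' a) q = dt p q + dt p' q := by
  unfold dt
  rw [← Finset.sum_add_distrib]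
  exact Finset.sum_congr rfl fun a _ => by ring

theorem dt_sub_left (p p' q : Fin m → ℝ) : dt (fun a => p a - p' a) q = dt p q - dt p' q := by
  unfold dt
  rw [← Finset.sum_sub_distrib]
  exact Finset.sum_congr rfl fun a _ => by ring

theorem dt_self_nonneg (p : Fin m → ℝ) : 0 ≤ dt p p :=
  Finset.sum_nonneg fun a _ => mul_self_nonneg _

theorem dt_self_pos {p : Fin m → ℝ} (h : p ≠ 0) : 0 < dt p p := by
  refine lt_of_le_of_ne (dt_self_nonneg p) fun h0 => h ?_
  have h1 := (Finset.sum_eq_zero_iff_of_nonneg (fun a _ => mul_self_nonneg (p a))).1 h0.symm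
  funext a
  exact mul_self_eq_zero.1 (h1 a (Finset.mem_univ a))

theorem QL_smul1 (R : T4 m) (t : ℝ) (p q r s : Fin m → ℝ) :
    QL R (fun a => t * p a) q r s = t * QL R p q r s := by
  unfold QL
  simp only [Finset.mul_sum]
  refine Finset.sum_congr rfl fun a _ => Finset.sum_congr rfl fun b _ =>
    Finset.sum_congr rfl fun c _ => Finset.sum_congr rfl fun d _ => ?_
  ring

theorem QL_add2 (R : T4 m) (t t' : ℝ) (p q q' r s : Fin m → ℝ) :
    QL R p (fun a => t * q a + t' * q' a) r s = t * QL R p q r s + t' * QL R p q' r s := by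
  unfold QL
  simp only [Finset.mul_sum, ← Finset.sum_add_distrib]
  refine Finset.sum_congr rfl fun a _ => Finset.sum_congr rfl fun b _ =>
    Finset.sum_congr rfl fun c _ => Finset.sum_congr rfl fun d _ => ?_
  ring

theorem QL_smul3 (R : T4 m) (t : ℝ) (p q r s : Fin m → ℝ) :
    QL R p q (fun a => t * r a) s = t * QL R p q r s := by
  unfold QL
  simp only [Finset.mul_sum]
  refine Finset.sum_congr rfl fun a _ => Finset.sum_congr rfl fun b _ =>
    Finset.sum_congr rfl fun c _ => Finset.sum_congr rfl fun d _ => ?_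
  ring

theorem QL_add4 (R : T4 m) (t t' : ℝ) (p q r s s' : Fin m → ℝ) :
    QL R p q r (fun a => t * s a + t' * s' a) = t * QL R p q r s + t' * QL R p q r s' := by
  unfold QL
  simp only [Finset.mul_sum, ← Finset.sum_add_distrib]
  refine Finset.sum_congr rfl fun a _ => Finset.sum_congr rfl fun b _ =>
    Finset.sum_congr rfl fun c _ => Finset.sum_congr rfl fun d _ => ?_
  ring

theorem QL_alt12 {R : T4 m} (hR : IsCurv R) (p r s : Fin m → ℝ) : QL R p p r s = 0 := by
  have h : QL R p p r s = - QL R p p r s := by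
    conv_lhs => unfold QL
    rw [Finset.sum_comm]
    unfold QL
    simp only [← Finset.sum_neg_distrib]
    refine Finset.sum_congr rfl fun a _ => Finset.sum_congr rfl fun b _ =>
      Finset.sum_congr rfl fun c _ => Finset.sum_congr rfl fun d _ => ?_
    rw [hR.a12 b a c d]
    ring
  linarith

theorem QL_alt34 {R : T4 m} (hR : IsCurv R) (p q r : Fin m → ℝ) : QL R p q r r = 0 := by
  have h : QL R p q r r = - QL R p q r r := by
    unfold QL
    simp only [← Finset.sum_neg_distrib]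
    refine Finset.sum_congr rfl fun a _ => Finset.sum_congr rfl fun b _ => ?_
    rw [Finset.sum_comm]
    refine Finset.sum_congr rfl fun c _ => Finset.sum_congr rfl fun d _ => ?_
    rw [hR.a34 a b d c]
    ring
  linarith

/-- Gram-Schmidt for a pair orthogonal to `ν` -/
theorem gs {p q ν : Fin m → ℝ} (hli : ∀ s t : ℝ, (∀ a, s * p a + t * q a = 0) → s = 0 ∧ t = 0)
    (hp : dt p ν = 0) (hq : dt q ν = 0) :
    ∃ e f : Fin m → ℝ, dt e e = 1 ∧ dt f f = 1 ∧ dt e f = 0 ∧ dt e ν = 0 ∧ dt f ν = 0 ∧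
      ∃ α β γ : ℝ, α ≠ 0 ∧ γ ≠ 0 ∧ (p = fun a => α * e a) ∧ (q = fun a => β * e a + γ * f a) := by
  have hp0 : p ≠ 0 := by
    intro h
    have := hli 1 0 (fun a => by rw [h]; simp)
    exact one_ne_zero this.1
  have hpp := dt_self_pos hp0
  set α := Real.sqrt (dt p p) with hα
  have hαp : 0 < α := Real.sqrt_pos.2 hpp
  have hα2 : α * α = dt p p := Real.mul_self_sqrt hpp.le
  set e : Fin m → ℝ := fun a => α⁻¹ * p a with he
  have hpe : p = fun a => α * e a := by
    funext a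
    rw [he]
    field_simp
  have hee : dt e e = 1 := by
    rw [he, dt_smul_left, dt_comm, dt_smul_left, ← hα2]
    field_simp
  set β := dt q e with hβ
  set g : Fin m → ℝ := fun a => q a - β * e a with hg
  have hg0 : g ≠ 0 := by
    intro h
    have h1 : ∀ a, (-(β * α⁻¹)) * p a + 1 * q a = 0 := by
      intro a
      have := congrFun h a
      simp only [hg, he, Pi.zero_apply] at this
      linarith
    exact one_ne_zero (hli _ _ h1).2
  have hgg := dt_self_pos hg0
  set γ := Real.sqrt (dt g g) with hγ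
  have hγp : 0 < γ := Real.sqrt_pos.2 hgg
  have hγ2 : γ * γ = dt g g := Real.mul_self_sqrt hgg.le
  have hge : dt g e = 0 := by
    rw [hg, dt_sub_left, dt_smul_left, hee]
    ring
  refine ⟨e, fun a => γ⁻¹ * g a, hee, ?_, ?_, ?_, ?_, α, β, γ, hαp.ne', hγp.ne', hpe, ?_⟩
  · rw [dt_smul_left, dt_comm, dt_smul_left, ← hγ2]
    field_simp
  · rw [dt_comm, dt_smul_left, hge, mul_zero]
  · rw [he, dt_smul_left, hp, mul_zero]
  · rw [dt_smul_left, hg, dt_sub_left, hq, dt_smul_left, he, dt_smul_left, hp]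
    ring
  · funext a
    simp only [hg]
    field_simp
    ring

theorem QL_gs {R : T4 m} (hR : IsCurv R) {e f : Fin m → ℝ} (α β γ : ℝ) :
    QL R (fun a => α * e a) (fun a => β * e a + γ * f a) (fun a => α * e a)
      (fun a => β * e a + γ * f a) = (α * γ) ^ 2 * QL R e f e f := by
  rw [QL_smul1, QL_add2, QL_alt12 hR, QL_smul3, QL_add4, QL_alt34 hR]
  ring

theorem ar_gs {e f : Fin m → ℝ} (hee : dt e e = 1) (hff : dt f f = 1) (hef : dt e f = 0)
    (α β γ : ℝ) :
    dt (fun a => α * e a) (fun a => α * e a) *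
      dt (fun a => β * e a + γ * f a) (fun a => β * e a + γ * f a) -
      dt (fun a => α * e a) (fun a => β * e a + γ * f a) ^ 2 = (α * γ) ^ 2 := by
  have hfe : dt f e = 0 := by rw [dt_comm, hef]
  have key : ∀ x y z w : ℝ, dt (fun a => x * e a + y * f a) (fun a => z * e a + w * f a) =
      x * z + y * w := by
    intro x y z w
    rw [dt_add_left, dt_smul_left, dt_smul_left, dt_comm e, dt_comm f, dt_add_left, dt_add_left,
      dt_smul_left, dt_smul_left, dt_smul_left, dt_smul_left, hee, hff, hef, hfe]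
    ring
  have h1 : (fun a => α * e a) = fun a => α * e a + 0 * f a := by
    funext a
    ring
  rw [h1, key, key, key]
  ring

end alg

/-! ### the dictionary -/

variable {n : ℕ}

/-- frame components of a vector in coordinates -/
def hatv (θ : MF n) (x : EE n) (u : Fin (n + 1) → ℝ) (a : Ix n) : ℝ := ∑ i, θ x i a * u i

/-- coordinates of a vector given in the frame -/
def vecv (A : MF n) (x : EE n) (p : Ix n → ℝ) (i : Fin (n + 1)) : ℝ := ∑ a, A x a i * p a

theorem vec_hat {A θ : MF n} (hf : Frm A θ) (x : EE n) (u : Fin (n + 1) → ℝ) :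
    vecv A x (hatv θ x u) = u := by
  have h : θ x * A x = 1 := by
    have := hf.inv x
    exact mul_eq_one_comm.1 this
  funext i
  unfold vecv hatv
  have h1 : ∀ a, A x a i * ∑ j, θ x j a * u j = ∑ j, (θ x j a * A x a i) * u j := by
    intro a
    rw [Finset.mul_sum]
    exact Finset.sum_congr rfl fun j _ => by ring
  simp only [h1]
  rw [Finset.sum_comm]
  simp only [← Finset.sum_mul]
  have h2 : ∀ j, ∑ a, θ x j a * A x a i = if j = i then 1 else 0 := by
    intro j
    have := congrFun (congrFun h j) i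
    rw [Matrix.mul_apply] at this
    rw [this, Matrix.one_apply]
  simp [h2]

theorem nfc_one {A : MF n} {x : EE n} (hx : ‖x‖ = 1) (a : Ix n) :
    nfc A a x = ∑ i, A x a i * x i := by
  unfold nfc nn
  simp [hx]

theorem tan_dt {A : MF n} {x : EE n} (hx : ‖x‖ = 1) (p : Ix n → ℝ) :
    Tan x (vecv A x p) ↔ dt p (fun a => nfc A a x) = 0 := by
  have h : ∑ i, vecv A x p i * x i = dt p (fun a => nfc A a x) := by
    unfold vecv dt
    simp only [nfc_one hx, Finset.sum_mul, Finset.mul_sum]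
    rw [Finset.sum_comm]
    exact Finset.sum_congr rfl fun a _ => Finset.sum_congr rfl fun i _ => by ring
  unfold Tan
  rw [h]

theorem ip_vecv {A θ : MF n} (hF : Goal_FRF) (hf : Frm A θ) {x : EE n} (hx : ‖x‖ = 1)
    (p q : Ix n → ℝ) : ip (cyl (gOf θ)) x (vecv A x p) (vecv A x q) = dt p q := by
  obtain ⟨-, -, -, -, -, -, -, -, -, -, -, -, -, -, -, -, hA, -⟩ := hF n A θ hf
  have h0 : ip (cyl (gOf θ)) x (vecv A x p) (vecv A x q) =
      ip (gOf θ) x (vecv A x p) (vecv A x q) := by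
    unfold ip cyl
    refine Finset.sum_congr rfl fun i _ => Finset.sum_congr rfl fun j _ => ?_
    simp [hx]
  rw [h0]
  have h1 : ip (gOf θ) x (vecv A x p) (vecv A x q) =
      ∑ a, ∑ b, (ip (gOf θ) x (A x a) (A x b)) * p a * q b := by
    have e1 : ∀ a b, ip (gOf θ) x (A x a) (A x b) * p a * q b =
        ∑ i, ∑ j, gOf θ x i j * A x a i * A x b j * p a * q b := by
      intro a b
      unfold ip
      simp only [Finset.sum_mul]
    simp only [e1]
    unfold ip vecv
    have e2 : ∀ i j, gOf θ x i j * (∑ a, A x a i * p a) * (∑ b, A x b j * q b) =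
        ∑ a, ∑ b, gOf θ x i j * A x a i * A x b j * p a * q b := by
      intro i j
      have e3 : ∀ a b, gOf θ x i j * A x a i * A x b j * p a * q b =
          gOf θ x i j * (A x a i * p a) * (A x b j * q b) := by
        intro a b
        ring
      simp only [e3, ← Finset.mul_sum, ← Finset.sum_mul]
    simp only [e2]
    have h2 := Finset.sum_comm (s := (univ : Finset (Ix n × Ix n))) (t := (univ : Finset (Ix n × Ix n)))
      (f := fun r s => gOf θ x r.1 r.2 * A x s.1 r.1 * A x s.2 r.2 * p s.1 * q s.2)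
    simpa only [Fintype.sum_prod_type] using h2
  rw [h1]
  unfold dt
  refine Finset.sum_congr rfl fun a _ => ?_
  rw [Finset.sum_eq_single a]
  · rw [hA, if_pos rfl, one_mul]
  · intro b _ hb
    rw [hA, if_neg (Ne.symm hb), zero_mul, zero_mul]
  · intro h
    exact absurd (Finset.mem_univ a) h

theorem sw4 {α β : Type} [Fintype α] [Fintype β] (F : α → α → α → α → β → β → β → β → ℝ) :
    ∑ i, ∑ j, ∑ k, ∑ l, ∑ a, ∑ b, ∑ c, ∑ d, F i j k l a b c d =
      ∑ a, ∑ b, ∑ c, ∑ d, ∑ i, ∑ j, ∑ k, ∑ l, F i j k l a b c d := by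
  have h := Finset.sum_comm (s := (univ : Finset (α × α × α × α)))
    (t := (univ : Finset (β × β × β × β)))
    (f := fun q p => F q.1 q.2.1 q.2.2.1 q.2.2.2 p.1 p.2.1 p.2.2.1 p.2.2.2)
  simpa only [Fintype.sum_prod_type] using h

theorem curv_vecv {A θ : MF n} (hF : Goal_FRF) (hf : Frm A θ) {x : EE n} (hx : ‖x‖ = 1)
    (p q : Ix n → ℝ) : curv (cyl (gOf θ)) x (vecv A x p) (vecv A x q) = QL (RT A θ x) p q p q := by
  have hx0 : x ≠ 0 := by
    intro h
    rw [h, norm_zero] at hx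
    exact zero_ne_one hx
  obtain ⟨-, -, -, -, -, -, -, -, -, -, -, -, -, hC, -, hR, -, -⟩ := hF n A θ hf
  have hC := hC x hx0
  have hR := hR x hx0
  have h1 : curv (cyl (gOf θ)) x (vecv A x p) (vecv A x q) =
      ∑ a, ∑ b, ∑ c, ∑ d, (∑ i, ∑ j, ∑ k, ∑ l, Rm (cyl (gOf θ)) i j k l x * A x a i * A x b j *
        A x c k * A x d l) * p a * q b * q c * p d := by
    unfold curv vecv
    have e1 : ∀ i j k l, Rm (cyl (gOf θ)) i j k l x * (∑ a, A x a i * p a) *
        (∑ b, A x b j * q b) * (∑ c, A x c k * q c) * (∑ d, A x d l * p d) =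
        ∑ a, ∑ b, ∑ c, ∑ d, Rm (cyl (gOf θ)) i j k l x * (A x a i * p a) * (A x b j * q b) *
          (A x c k * q c) * (A x d l * p d) := by
      intro i j k l
      simp only [← Finset.mul_sum, ← Finset.sum_mul]
    simp only [e1]
    rw [sw4]
    refine Finset.sum_congr rfl fun a _ => Finset.sum_congr rfl fun b _ =>
      Finset.sum_congr rfl fun c _ => Finset.sum_congr rfl fun d _ => ?_
    simp only [Finset.sum_mul]
    refine Finset.sum_congr rfl fun i _ => Finset.sum_congr rfl fun j _ =>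
      Finset.sum_congr rfl fun k _ => Finset.sum_congr rfl fun l _ => ?_
    ring
  rw [h1]
  unfold QL RT
  refine Finset.sum_congr rfl fun a _ => Finset.sum_congr rfl fun b _ => ?_
  rw [Finset.sum_comm]
  refine Finset.sum_congr rfl fun c _ => Finset.sum_congr rfl fun d _ => ?_
  rw [hR a b d c, hx, hC.a34 a b c d]
  ring

/-- sectional curvature through orthonormal pairs in the frame -/
theorem sec_gs {A θ : MF n} (hF : Goal_FRF) (hf : Frm A θ) {x : EE n} (hx : ‖x‖ = 1)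
    {u v : Fin (n + 1) → ℝ} (hu : Tan x u) (hv : Tan x v) (hli : LinearIndependent ℝ ![u, v]) :
    ∃ e f : Ix n → ℝ, dt e e = 1 ∧ dt f f = 1 ∧ dt e f = 0 ∧ dt e (fun a => nfc A a x) = 0 ∧
      dt f (fun a => nfc A a x) = 0 ∧ sec (cyl (gOf θ)) x u v = QL (RT A θ x) e f e f := by
  have hx0 : x ≠ 0 := by
    intro h
    rw [h, norm_zero] at hx
    exact zero_ne_one hx
  have hC : IsCurv (RT A θ x) := by
    obtain ⟨-, -, -, -, -, -, -, -, -, -, -, -, -, hC, -⟩ := hF n A θ hf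
    exact hC x hx0
  have h1 := vec_hat hf x u
  have h2 := vec_hat hf x v
  have hp : dt (hatv θ x u) (fun a => nfc A a x) = 0 := by
    rw [← tan_dt hx, h1]
    exact hu
  have hq : dt (hatv θ x v) (fun a => nfc A a x) = 0 := by
    rw [← tan_dt hx, h2]
    exact hv
  have hl : ∀ s t : ℝ, (∀ a, s * hatv θ x u a + t * hatv θ x v a = 0) → s = 0 ∧ t = 0 := by
    intro s t hst
    refine (LinearIndependent.pair_iff.1 hli) s t ?_
    funext i
    have e1 : s * vecv A x (hatv θ x u) i + t * vecv A x (hatv θ x v) i = 0 := by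
      unfold vecv
      rw [Finset.mul_sum, Finset.mul_sum, ← Finset.sum_add_distrib]
      refine Finset.sum_eq_zero fun a _ => ?_
      have := hst a
      calc s * (A x a i * hatv θ x u a) + t * (A x a i * hatv θ x v a)
          = A x a i * (s * hatv θ x u a + t * hatv θ x v a) := by ring
        _ = 0 := by rw [this, mul_zero]
    rw [h1, h2] at e1
    simpa using e1
  obtain ⟨e, f, hee, hff, hef, hen, hfn, α, β, γ, hα, hγ, hpe, hqe⟩ := gs hl hp hq
  refine ⟨e, f, hee, hff, hef, hen, hfn, ?_⟩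
  have h3 : curv (cyl (gOf θ)) x u v = (α * γ) ^ 2 * QL (RT A θ x) e f e f := by
    rw [← h1, ← h2, curv_vecv hF hf hx, hpe, hqe]
    exact QL_gs hC α β γ
  have h4 : ar (cyl (gOf θ)) x u v = (α * γ) ^ 2 := by
    unfold ar
    rw [← h1, ← h2, ip_vecv hF hf hx, ip_vecv hF hf hx, ip_vecv hF hf hx, hpe, hqe]
    exact ar_gs hee hff hef α β γ
  unfold sec
  rw [h3, h4]
  have h5 : (α * γ) ^ 2 ≠ 0 := pow_ne_zero 2 (mul_ne_zero hα hγ)
  field_simp

/-- conversely orthonormal pairs give sectional curvatures -/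
theorem sec_on {A θ : MF n} (hF : Goal_FRF) (hf : Frm A θ) {x : EE n} (hx : ‖x‖ = 1)
    {e f : Ix n → ℝ} (hee : dt e e = 1) (hff : dt f f = 1) (hef : dt e f = 0) :
    sec (cyl (gOf θ)) x (vecv A x e) (vecv A x f) = QL (RT A θ x) e f e f ∧
      LinearIndependent ℝ ![vecv A x e, vecv A x f] := by
  constructor
  · unfold sec ar
    rw [curv_vecv hF hf hx, ip_vecv hF hf hx, ip_vecv hF hf hx, ip_vecv hF hf hx, hee, hff, hef]
    norm_num
  · rw [LinearIndependent.pair_iff]
    intro s t hst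
    have key : ∀ w : Ix n → ℝ, s * dt w e + t * dt w f = 0 := by
      intro w
      rw [← ip_vecv hF hf hx w e, ← ip_vecv hF hf hx w f]
      have h1 : ∀ i, s * vecv A x e i + t * vecv A x f i = 0 := fun i => by
        have := congrFun hst i
        simpa using this
      unfold ip
      simp only [Finset.mul_sum]
      rw [← Finset.sum_add_distrib]
      refine Finset.sum_eq_zero fun i _ => ?_
      rw [← Finset.sum_add_distrib]
      refine Finset.sum_eq_zero fun j _ => ?_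
      have h2 : s * (cyl (gOf θ) x i j * vecv A x w i * vecv A x e j) +
          t * (cyl (gOf θ) x i j * vecv A x w i * vecv A x f j) =
          cyl (gOf θ) x i j * vecv A x w i * (s * vecv A x e j + t * vecv A x f j) := by ring
      rw [h2, h1 j, mul_zero]
    have k1 := key e
    have k2 := key f
    rw [hee, hef] at k1
    rw [hff, dt_comm f e, hef] at k2
    constructor
    · linarith
    · linarith

/-! ### compactness -/

/-- the parameter space -/
abbrev ZZP (n : ℕ) := EE n × (Ix n → ℝ) × (Ix n → ℝ) × (Ix n → ℝ) × (Ix n → ℝ)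

theorem cdt {Z : Type} [TopologicalSpace Z] {s : Set Z} {m : ℕ} {f g : Z → Fin m → ℝ}
    (hf : ∀ a, ContinuousOn (fun z => f z a) s) (hg : ∀ a, ContinuousOn (fun z => g z a) s) :
    ContinuousOn (fun z => dt (f z) (g z)) s := by
  unfold dt
  exact continuousOn_finsetSum _ fun a _ => (hf a).mul (hg a)

theorem cQL {Z : Type} [TopologicalSpace Z] {s : Set Z} {m : ℕ} {R : Z → T4 m}
    {f g h k : Z → Fin m → ℝ} (hR : ∀ a b c d, ContinuousOn (fun z => R z a b c d) s)
    (hf : ∀ a, ContinuousOn (fun z => f z a) s) (hg : ∀ a, ContinuousOn (fun z => g z a) s)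
    (hh : ∀ a, ContinuousOn (fun z => h z a) s) (hk : ∀ a, ContinuousOn (fun z => k z a) s) :
    ContinuousOn (fun z => QL (R z) (f z) (g z) (h z) (k z)) s := by
  unfold QL
  exact continuousOn_finsetSum _ fun a _ => continuousOn_finsetSum _ fun b _ =>
    continuousOn_finsetSum _ fun c _ => continuousOn_finsetSum _ fun d _ =>
      ((((hR a b c d).mul (hf a)).mul (hg b)).mul (hh c)).mul (hk d)

/-- five conditions -/
noncomputable def ph (A : MF n) (x : EE n) (p q : Ix n → ℝ) : ℝ × ℝ × ℝ × ℝ × ℝ :=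
  (dt p p, dt q q, dt p q, dt p (fun a => nfc A a x), dt q (fun a => nfc A a x))

/-- unit sphere times boxes -/
def Bx (n : ℕ) : Set (ZZP n) :=
  Metric.sphere (0 : EE n) 1 ×ˢ (Set.pi Set.univ (fun _ : Ix n => Set.Icc (-1 : ℝ) 1)) ×ˢ
    (Set.pi Set.univ (fun _ : Ix n => Set.Icc (-1 : ℝ) 1)) ×ˢ
    (Set.pi Set.univ (fun _ : Ix n => Set.Icc (-1 : ℝ) 1)) ×ˢ
    (Set.pi Set.univ (fun _ : Ix n => Set.Icc (-1 : ℝ) 1))

theorem Bx_compact (n : ℕ) : IsCompact (Bx n) := by
  have h : IsCompact (Set.pi Set.univ (fun _ : Ix n => Set.Icc (-1 : ℝ) 1)) :=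
    isCompact_univ_pi fun _ => isCompact_Icc
  exact (isCompact_sphere 0 1).prod (h.prod (h.prod (h.prod h)))

/-- orthonormal pairs orthogonal to the radial vector, over the unit sphere -/
def KK (A : MF n) : Set (ZZP n) :=
  Bx n ∩ (fun z : ZZP n => (ph A z.1 z.2.1 z.2.2.1, ph A z.1 z.2.2.2.1 z.2.2.2.2)) ⁻¹'
    {((1, 1, 0, 0, 0), (1, 1, 0, 0, 0))}

theorem fst_ne {z : ZZP n} (hz : z ∈ Bx n) : z.1 ≠ 0 := by
  intro h
  have h1 : z.1 ∈ Metric.sphere (0 : EE n) 1 := hz.1
  rw [h] at h1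
  simp at h1

theorem c_fst {f : EE n → ℝ} (hf : Sm f) : ContinuousOn (fun z : ZZP n => f z.1) (Bx n) :=
  hf.cd.continuousOn.comp continuous_fst.continuousOn fun _ hz => fst_ne hz

theorem c1 (a : Ix n) (s : Set (ZZP n)) : ContinuousOn (fun z : ZZP n => z.2.1 a) s := by
  fun_prop

theorem c2 (a : Ix n) (s : Set (ZZP n)) : ContinuousOn (fun z : ZZP n => z.2.2.1 a) s := by
  fun_prop

theorem c3 (a : Ix n) (s : Set (ZZP n)) : ContinuousOn (fun z : ZZP n => z.2.2.2.1 a) s := by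
  fun_prop

theorem c4 (a : Ix n) (s : Set (ZZP n)) : ContinuousOn (fun z : ZZP n => z.2.2.2.2 a) s := by
  fun_prop

theorem KK_compact {A : MF n} (hn : ∀ a, Sm (nfc A a)) : IsCompact (KK A) := by
  have hcl : IsClosed (KK A) := by
    refine ContinuousOn.preimage_isClosed_of_isClosed ?_ (Bx_compact n).isClosed
      isClosed_singleton
    unfold ph
    have hν : ∀ a, ContinuousOn (fun z : ZZP n => nfc A a z.1) (Bx n) := fun a => c_fst (hn a)
    refine ContinuousOn.prodMk ?_ ?_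
    · exact (cdt (fun a => c1 a _) (fun a => c1 a _)).prodMk
        ((cdt (fun a => c2 a _) (fun a => c2 a _)).prodMk
        ((cdt (fun a => c1 a _) (fun a => c2 a _)).prodMk
        ((cdt (fun a => c1 a _) hν).prodMk (cdt (fun a => c2 a _) hν))))
    · exact (cdt (fun a => c3 a _) (fun a => c3 a _)).prodMk
        ((cdt (fun a => c4 a _) (fun a => c4 a _)).prodMk
        ((cdt (fun a => c3 a _) (fun a => c4 a _)).prodMk
        ((cdt (fun a => c3 a _) hν).prodMk (cdt (fun a => c4 a _) hν))))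
  exact (Bx_compact n).of_isClosed_subset hcl Set.inter_subset_left

theorem mem_box {m : ℕ} {p : Fin m → ℝ} (h : dt p p = 1) :
    p ∈ Set.pi Set.univ (fun _ : Fin m => Set.Icc (-1 : ℝ) 1) := by
  intro a _
  have h1 : p a * p a ≤ dt p p :=
    Finset.single_le_sum (f := fun a => p a * p a) (fun a _ => mul_self_nonneg (p a))
      (Finset.mem_univ a)
  rw [h] at h1
  exact abs_le.1 (abs_le_one_iff_mul_self_le_one.2 h1)

/-- the orthonormal pairs -/
def ON (A : MF n) (x : EE n) (e f : Ix n → ℝ) : Prop :=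
  dt e e = 1 ∧ dt f f = 1 ∧ dt e f = 0 ∧ dt e (fun a => nfc A a x) = 0 ∧
    dt f (fun a => nfc A a x) = 0

theorem mem_KK {A : MF n} {z : ZZP n} :
    z ∈ KK A ↔ ‖z.1‖ = 1 ∧ ON A z.1 z.2.1 z.2.2.1 ∧ ON A z.1 z.2.2.2.1 z.2.2.2.2 := by
  constructor
  · rintro ⟨hb, hz⟩
    have h1 : z.1 ∈ Metric.sphere (0 : EE n) 1 := hb.1
    have h2 : (ph A z.1 z.2.1 z.2.2.1, ph A z.1 z.2.2.2.1 z.2.2.2.2) =
      (((1, 1, 0, 0, 0), (1, 1, 0, 0, 0)) : (ℝ × ℝ × ℝ × ℝ × ℝ) × (ℝ × ℝ × ℝ × ℝ × ℝ)) := hz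
    simp only [ph, Prod.mk.injEq] at h2
    obtain ⟨⟨a1, a2, a3, a4, a5⟩, ⟨b1, b2, b3, b4, b5⟩⟩ := h2
    exact ⟨by simpa using h1, ⟨a1, a2, a3, a4, a5⟩, ⟨b1, b2, b3, b4, b5⟩⟩
  · rintro ⟨h1, ⟨a1, a2, a3, a4, a5⟩, ⟨b1, b2, b3, b4, b5⟩⟩
    refine ⟨⟨by simpa using h1, mem_box a1, mem_box a2, mem_box b1, mem_box b2⟩, ?_⟩
    show (ph A z.1 z.2.1 z.2.2.1, ph A z.1 z.2.2.2.1 z.2.2.2.2) =
      (((1, 1, 0, 0, 0), (1, 1, 0, 0, 0)) : (ℝ × ℝ × ℝ × ℝ × ℝ) × (ℝ × ℝ × ℝ × ℝ × ℝ))
    simp only [ph, a1, a2, a3, a4, a5, b1, b2, b3, b4, b5]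

end Pool.Agent.Helper83.FLG.PDL

namespace Pool.Agent.Helper83.FLG

open PDL

theorem p_PDL (hCHO : ChoStmt) (hFRF : Goal_FRF) : G_PDL := by
  intro n _ G hG hpin
  obtain ⟨A, θ, hf, hGe⟩ := hCHO n G hG
  have hGG : gOf θ = G := funext hGe
  subst hGG
  have hn : ∀ a, Sm (nfc A a) := by
    obtain ⟨-, -, -, -, -, -, hn, -⟩ := hFRF n A θ hf
    exact hn
  have hRs : ∀ a b c d, Sm (Rf A θ a b c d) := by
    obtain ⟨-, -, -, -, -, hR, -⟩ := hFRF n A θ hf
    exact hR
  -- the pinching on orthonormal pairs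
  have hpos : ∀ (x : EE n) (e f e' f' : Ix n → ℝ), ‖x‖ = 1 → ON A x e f → ON A x e' f' →
      0 < QL (RT A θ x) e f e f ∧
        1 / 4 * QL (RT A θ x) e' f' e' f' < QL (RT A θ x) e f e f := by
    rintro x e f e' f' hx ⟨h1, h2, h3, h4, h5⟩ ⟨k1, k2, k3, k4, k5⟩
    obtain ⟨s1, l1⟩ := sec_on hFRF hf hx h1 h2 h3
    obtain ⟨s2, l2⟩ := sec_on hFRF hf hx k1 k2 k3
    have := hpin x hx _ _ _ _ ((tan_dt hx e).2 h4) ((tan_dt hx f).2 h5) ((tan_dt hx e').2 k4)
      ((tan_dt hx f').2 k5) l1 l2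
    rw [s1, s2] at this
    exact this
  have hcR : ∀ a b c d, ContinuousOn (fun z : ZZP n => RT A θ z.1 a b c d) (Bx n) :=
    fun a b c d => c_fst (hRs a b c d)
  have hsub : KK A ⊆ Bx n := Set.inter_subset_left
  by_cases hne : (KK A).Nonempty
  · have hF : ContinuousOn (fun z : ZZP n => QL (RT A θ z.1) z.2.1 z.2.2.1 z.2.1 z.2.2.1 -
        1 / 4 * QL (RT A θ z.1) z.2.2.2.1 z.2.2.2.2 z.2.2.2.1 z.2.2.2.2) (KK A) := by
      refine ContinuousOn.mono ?_ hsub
      exact (cQL hcR (fun a => c1 a _) (fun a => c2 a _) (fun a => c1 a _) (fun a => c2 a _)).sub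
        (continuousOn_const.mul
          (cQL hcR (fun a => c3 a _) (fun a => c4 a _) (fun a => c3 a _) (fun a => c4 a _)))
    have hM : ContinuousOn (fun z : ZZP n =>
        QL (RT A θ z.1) z.2.2.2.1 z.2.2.2.2 z.2.2.2.1 z.2.2.2.2) (KK A) := by
      refine ContinuousOn.mono ?_ hsub
      exact cQL hcR (fun a => c3 a _) (fun a => c4 a _) (fun a => c3 a _) (fun a => c4 a _)
    obtain ⟨z0, hz0, hmin⟩ := (KK_compact hn).exists_isMinOn hne hF
    obtain ⟨z1, hz1, hmax⟩ := (KK_compact hn).exists_isMaxOn hne hM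
    obtain ⟨g1, g2, g3⟩ := mem_KK.1 hz0
    obtain ⟨j1, j2, j3⟩ := mem_KK.1 hz1
    have hmin' := isMinOn_iff.1 hmin
    have hmax' := isMaxOn_iff.1 hmax
    clear hmin hmax
    have hm0p : 0 < QL (RT A θ z0.1) z0.2.1 z0.2.2.1 z0.2.1 z0.2.2.1 -
        1 / 4 * QL (RT A θ z0.1) z0.2.2.2.1 z0.2.2.2.2 z0.2.2.2.1 z0.2.2.2.2 := by
      have := (hpos z0.1 _ _ _ _ g1 g2 g3).2
      linarith
    have hM1p : 0 < QL (RT A θ z1.1) z1.2.2.2.1 z1.2.2.2.2 z1.2.2.2.1 z1.2.2.2.2 :=
      (hpos z1.1 _ _ _ _ j1 j3 j2).1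
    generalize QL (RT A θ z0.1) z0.2.1 z0.2.2.1 z0.2.1 z0.2.2.1 -
        1 / 4 * QL (RT A θ z0.1) z0.2.2.2.1 z0.2.2.2.2 z0.2.2.2.1 z0.2.2.2.2 = m0 at hmin' hm0p
    generalize QL (RT A θ z1.1) z1.2.2.2.1 z1.2.2.2.2 z1.2.2.2.1 z1.2.2.2.2 = M1 at hmax' hM1p
    refine ⟨1 / 4 + m0 / (2 * M1), by
      have : 0 < m0 / (2 * M1) := by positivity
      linarith, ?_⟩
    intro x hx u v u' v' hu hv hu' hv' hl hl'
    obtain ⟨e, f, a1, a2, a3, a4, a5, hs⟩ := sec_gs hFRF hf hx hu hv hl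
    obtain ⟨e', f', b1, b2, b3, b4, b5, hs'⟩ := sec_gs hFRF hf hx hu' hv' hl'
    have ha : ON A x e f := ⟨a1, a2, a3, a4, a5⟩
    have hb : ON A x e' f' := ⟨b1, b2, b3, b4, b5⟩
    rw [hs, hs']
    have hz : ((x, e, f, e', f') : ZZP n) ∈ KK A := mem_KK.2 ⟨hx, ha, hb⟩
    have h1 := hmin' _ hz
    have h2 := hmax' _ hz
    simp only at h1 h2
    refine ⟨(hpos x _ _ _ _ hx ha hb).1, ?_⟩
    have h3 : m0 / (2 * M1) * QL (RT A θ x) e' f' e' f' ≤ m0 / 2 := by
      have h4 : m0 / (2 * M1) * QL (RT A θ x) e' f' e' f' ≤ m0 / (2 * M1) * M1 :=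
        mul_le_mul_of_nonneg_left h2 (by positivity)
      have h5 : m0 / (2 * M1) * M1 = m0 / 2 := by
        field_simp
      linarith
    rw [add_mul]
    linarith
  · refine ⟨1, by norm_num, ?_⟩
    intro x hx u v u' v' hu hv hu' hv' hl hl'
    obtain ⟨e, f, a1, a2, a3, a4, a5, hs⟩ := sec_gs hFRF hf hx hu hv hl
    exact absurd ⟨((x, e, f, e, f) : ZZP n), mem_KK.2 ⟨hx, ⟨a1, a2, a3, a4, a5⟩,
      ⟨a1, a2, a3, a4, a5⟩⟩⟩ hne

end Pool.Agent.Helper83.FLG
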